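import Pool.Agent.Lib.MP_6c284f_gt.Main

set_option autoImplicit false

/-!
MP_6c284f_gt, Q1: on a K3 surface with a Ricci-flat Kähler metric no closed geodesic is locally
length minimizing.

Idea of the proof. The holomorphic two-form and the metric give three parallel complex
structures `I_1, I_2, I_3`. Let `γ` be a locally length minimizing closed geodesic. The sum of the
second variations of the energy in the directions `γ', I_1 γ', I_2 γ', I_3 γ'` is minus a Ricci
curvature, so it is zero, and the curvature vanishes along `γ` (Bourguignon and Yau). Hence
through every point `q` near `γ` there is a unique geodesic loop `c_q` near `γ`, and its energy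
`F(q)` is at most the energy of the nearby loops through `q`. The second variation of the
energy of `c_q` in the directions `c_q', I_1 c_q', I_2 c_q', I_3 c_q'`, corrected so that the fields
close up at `q`, shows that `F` satisfies in the barrier sense an inequality `L F ≤ C |∇F|` with an
elliptic operator `L`. Since `F` is minimal along `γ`, the strong minimum principle shows that `F`
is constant near `γ`. So all `c_q` are closed geodesics of minimal energy, and the curvature
vanishes along them, that is, on an open set. The curvature satisfies an elliptic differential
inequality in holomorphic charts, and unique continuation (Carleman estimate) shows that the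
metric is flat. A compact simply connected manifold has no flat metric: a contradiction.
-/

namespace Pool.Agent.Results.MP_6c284f_gt.NoMinimizingGeodesic

open Pool.Agent.Lib.MP_6c284f_gt

/-- No closed geodesic of a Ricci-flat Kähler metric on a K3 surface is locally length
minimizing. -/
theorem result : ∀ (X : Type) [TopologicalSpace X] [ChartedSpace C2 X], IsK3 X →
    ∀ g : KahlerMetric X, g.RicciFlat →
      ∀ γ : C(UnitAddCircle, X), g.IsClosedGeodesic γ → ¬ g.LocallyLengthMinimizing γ :=
  fun _ _ _ hX g hR γ hγ => no_llm hX g hR γ hγ

end Pool.Agent.Results.MP_6c284f_gt.NoMinimizingGeodesic
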